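import Pool.Agent.Q117.WS.Main
import Pool.Agent.TH60.FP.Final
import Pool.Agent.TH60.FP.Main
import Pool.Agent.TH60.FP.Ext
import Pool.Agent.TH60.FP.Line

/-!
# Flats with a periodic labelling
-/

set_option autoImplicit false

universe u v w

namespace Pool.Agent.Q117.LP

open Pool.Agent.TH60.FP Pool.Agent.Q117.WS

/-- The Euclidean plane. -/
abbrev Plane : Type := EuclideanSpace ℝ (Fin 2)

variable {X : Type u} [MetricSpace X] {G : Type v} [Group G] [MulAction G X]

/-- a labelling of a flat with `φ (w + v) = g * φ w` for all `w` gives `ℤ²` -/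
theorem of_global [ProperSpace X] (hCN : CN X)
    [IsIsometricSMul G X] [ProperlyDiscontinuousSMul G X]
    (hcc : ∃ K : Set X, IsCompact K ∧ ∀ x : X, ∃ g : G, g • x ∈ K)
    (f : Plane → X) (hf : Isometry f) (b₁ b₂ : Plane) (hb : LinearIndependent ℝ ![b₁, b₂])
    (x₀ : X) (r : ℝ) (φ : ℤ × ℤ → G)
    (hφ : ∀ z : ℤ × ℤ, dist (φ z • x₀) (f (z.1 • b₁ + z.2 • b₂)) ≤ r)
    (v : ℤ × ℤ) (hv0 : v ≠ 0) (g : G) (hg : ∀ w, φ (w + v) = g * φ w) :
    ∃ ψ : Multiplicative (ℤ × ℤ) →* G, Function.Injective ψ := by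
  have h1 := Final.zpow_h φ v g hg
  -- the vector
  set L : ℤ × ℤ → Plane := fun z => z.1 • b₁ + z.2 • b₂ with hL
  have hLadd : ∀ z z', L (z + z') = L z + L z' := by
    intro z z'
    simp only [hL, Prod.fst_add, Prod.snd_add, add_smul]
    abel
  have hLsmul : ∀ (i : ℤ) z, L (i • z) = i • L z := by
    intro i z
    simp only [hL, Prod.smul_fst, Prod.smul_snd, smul_add, smul_assoc]
  set V : Plane := L v with hV
  have hli := LinearIndependent.pair_iff.1 hb
  have hV0 : V ≠ 0 := by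
    intro h
    apply hv0
    have h2 := hli (v.1 : ℝ) (v.2 : ℝ) (by
      rw [Int.cast_smul_eq_zsmul, Int.cast_smul_eq_zsmul]
      exact h)
    apply Prod.ext
    · exact_mod_cast h2.1
    · exact_mod_cast h2.2
  set τ : ℝ := ‖V‖ with hτ
  have hτ0 : 0 < τ := norm_pos_iff.2 hV0
  set U : Plane := τ⁻¹ • V with hU
  have hU1 : ‖U‖ = 1 := by
    rw [hU, norm_smul, norm_inv, norm_norm, ← hτ, inv_mul_cancel₀ hτ0.ne']
  have hUV : τ • U = V := by rw [hU, smul_smul, mul_inv_cancel₀ hτ0.ne', one_smul]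
  have hU2 : U 0 ^ 2 + U 1 ^ 2 = 1 := by
    have := EuclideanSpace.norm_sq_eq U
    rw [hU1, Fin.sum_univ_two, Real.norm_eq_abs, Real.norm_eq_abs, sq_abs, sq_abs] at this
    linarith
  set W : Plane := !₂[-U 1, U 0] with hW
  have hnorm : ∀ a b : ℝ, ‖a • U + b • W‖ ^ 2 = a ^ 2 + b ^ 2 := by
    intro a b
    rw [EuclideanSpace.norm_sq_eq, Fin.sum_univ_two, Real.norm_eq_abs, Real.norm_eq_abs, sq_abs,
      sq_abs]
    simp only [PiLp.add_apply, PiLp.smul_apply, smul_eq_mul, hW]
    simp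
    linear_combination (a ^ 2 + b ^ 2) * hU2
  set F : ℝ → ℝ → X := fun x y => f (x • U + y • W) with hF
  have hFl : Fl F := by
    intro x y x' y'
    rw [hF]
    simp only
    rw [hf.dist_eq, dist_eq_norm, ← hnorm]
    congr 2
    module
  -- approximation by lattice points
  set C : ℝ := ‖b₁‖ + ‖b₂‖ with hC
  have happ : ∀ p : Plane, ∃ z : ℤ × ℤ, dist p (L z) ≤ C := by
    intro p
    have hspan : ∃ α β : ℝ, p = α • b₁ + β • b₂ := by
      have hc : Fintype.card (Fin 2) = Module.finrank ℝ Plane := by simp [Plane]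
      set bas := basisOfLinearIndependentOfCardEqFinrank hb hc with hbas
      refine ⟨bas.repr p 0, bas.repr p 1, ?_⟩
      have h2 := bas.sum_repr p
      rw [Fin.sum_univ_two] at h2
      have h3 : ∀ i, bas i = ![b₁, b₂] i := fun i => by
        rw [hbas, coe_basisOfLinearIndependentOfCardEqFinrank]
      rw [h3, h3] at h2
      exact h2.symm
    obtain ⟨α, β, hp⟩ := hspan
    refine ⟨(⌊α⌋, ⌊β⌋), ?_⟩
    have h2 : p - L (⌊α⌋, ⌊β⌋) = Int.fract α • b₁ + Int.fract β • b₂ := by
      rw [hp, hL]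
      simp only
      rw [← Int.cast_smul_eq_zsmul ℝ, ← Int.cast_smul_eq_zsmul ℝ]
      unfold Int.fract
      module
    rw [dist_eq_norm, h2]
    refine (norm_add_le _ _).trans ?_
    rw [norm_smul, norm_smul, Real.norm_eq_abs, Real.norm_eq_abs, abs_of_nonneg (Int.fract_nonneg _),
      abs_of_nonneg (Int.fract_nonneg _)]
    have h3 := (Int.fract_lt_one α).le
    have h4 := (Int.fract_lt_one β).le
    have h5 := norm_nonneg b₁
    have h6 := norm_nonneg b₂
    rw [hC]
    exact add_le_add (mul_le_of_le_one_left h5 h3) (mul_le_of_le_one_left h6 h4)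
  have hper : ∀ (i : ℤ) (x y : ℝ), dist (g ^ i • F x y) (F (x + i * τ) y) ≤ C + r + (r + C) := by
    intro i x y
    set p : Plane := x • U + y • W with hp
    have hp2 : (x + i * τ) • U + y • W = p + i • V := by
      rw [hp, ← hUV, ← Int.cast_smul_eq_zsmul ℝ]
      module
    have e1 : F (x + i * τ) y = f (p + i • V) := by rw [hF]; simp only; rw [hp2]
    rw [e1]
    show dist (g ^ i • f p) (f (p + i • V)) ≤ _
    obtain ⟨z, hz⟩ := happ p
    have a1 : dist (g ^ i • f p) (g ^ i • f (L z)) ≤ C := by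
      rw [dist_smul, hf.dist_eq]; exact hz
    have a2 : dist (g ^ i • f (L z)) (g ^ i • φ z • x₀) ≤ r := by
      rw [dist_smul, dist_comm]; exact hφ z
    have a3 : dist (g ^ i • φ z • x₀) (f (L z + i • V)) ≤ r := by
      rw [← mul_smul, ← h1 i z, hV, ← hLsmul, ← hLadd]
      exact hφ _
    have a4 : dist (f (L z + i • V)) (f (p + i • V)) ≤ C := by
      rw [hf.dist_eq, dist_add_right, dist_comm]; exact hz
    have b1 := dist_triangle (g ^ i • f p) (g ^ i • f (L z)) (g ^ i • φ z • x₀)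
    have b2 := dist_triangle (g ^ i • φ z • x₀) (f (L z + i • V)) (f (p + i • V))
    have b3 := dist_triangle (g ^ i • f p) (g ^ i • φ z • x₀) (f (p + i • V))
    linarith
  exact close_all X G F g τ (C + r + (r + C)) ⟨inferInstance, inferInstance, inferInstance, hcc, hCN,
    hFl, hτ0, hper⟩

/-- local periods of size at most `q` everywhere give `ℤ²` -/
theorem of_local [ProperSpace X] (hCN : CN X)
    [IsIsometricSMul G X] [ProperlyDiscontinuousSMul G X]
    (hcc : ∃ K : Set X, IsCompact K ∧ ∀ x : X, ∃ g : G, g • x ∈ K)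
    (f : Plane → X) (hf : Isometry f) (b₁ b₂ : Plane) (hb : LinearIndependent ℝ ![b₁, b₂])
    (x₀ : X) (r : ℝ) (φ : ℤ × ℤ → G)
    (hφ : ∀ z : ℤ × ℤ, dist (φ z • x₀) (f (z.1 • b₁ + z.2 • b₂)) ≤ r)
    (q : ℤ) (hq : 0 < q)
    (hloc : ∀ z, ∃ v, v ≠ 0 ∧ Bx 0 q v ∧ ∃ g : G, ∀ w, Bx z (11 * q) w → Bx z (11 * q) (w + v) →
      φ (w + v) = g * φ w) :
    ∃ ψ : Multiplicative (ℤ × ℤ) →* G, Function.Injective ψ := by
  obtain ⟨v, hv0, hv⟩ := t_main t_ext t_line (G × G) (fun w : ℤ × ℤ =>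
    ((φ w)⁻¹ * φ (w + (1, 0)), (φ w)⁻¹ * φ (w + (0, 1)))) q hq (by
      intro z
      obtain ⟨v, h1, h2, g, hg⟩ := hloc z
      refine ⟨v, h1, h2, ?_⟩
      intro w hw hwv
      have b1 : Bx z (11 * q) w := by
        unfold Bx at hw ⊢; omega
      have b2 : Bx z (11 * q) (w + v) := by
        unfold Bx at hwv ⊢; omega
      have b3 : Bx z (11 * q) (w + (1, 0)) := by
        unfold Bx at hw ⊢
        simp only [Prod.fst_add, Prod.snd_add]
        omega
      have b4 : Bx z (11 * q) (w + (1, 0) + v) := by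
        unfold Bx at hwv ⊢
        simp only [Prod.fst_add, Prod.snd_add] at hwv ⊢
        omega
      have b5 : Bx z (11 * q) (w + (0, 1)) := by
        unfold Bx at hw ⊢
        simp only [Prod.fst_add, Prod.snd_add]
        omega
      have b6 : Bx z (11 * q) (w + (0, 1) + v) := by
        unfold Bx at hwv ⊢
        simp only [Prod.fst_add, Prod.snd_add] at hwv ⊢
        omega
      have e1 := hg w b1 b2
      have e2 := hg (w + (1, 0)) b3 b4
      have e3 := hg (w + (0, 1)) b5 b6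
      rw [show w + (1, 0) + v = w + v + (1, 0) by abel] at e2
      rw [show w + (0, 1) + v = w + v + (0, 1) by abel] at e3
      simp only
      rw [e1, e2, e3]
      ext <;> simp only <;> group)
  exact of_global hCN hcc f hf b₁ b₂ hb x₀ r φ hφ v hv0 _ (Final.const_h φ v hv)

end Pool.Agent.Q117.LP
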